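import Pool.Agent.Run7.h259.Sp.Four

/-! Completeness of the standard spectrum of `tau`. -/

set_option autoImplicit false

open Finset Filter Topology MeasureTheory

namespace Run7.h259.Sp

/-- finite stages of the standard spectrum: sums of `l_i 12^i`, `l_i < 4`, `i < k` -/
def SS : ℕ → Finset ℕ
  | 0 => {0}
  | k + 1 => ((SS k) ×ˢ Finset.range 4).image (fun x => x.1 + 12 ^ k * x.2)

lemma SS_bound (k : ℕ) : ∀ x ∈ SS k, 11 * x + 3 ≤ 3 * 12 ^ k := by
  induction k with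
  | zero => intro x hx; simp [SS] at hx; subst hx; norm_num
  | succ k ih =>
    intro x hx
    simp only [SS, mem_image, mem_product, mem_range, Prod.exists] at hx
    obtain ⟨a, b, ⟨ha, hb⟩, rfl⟩ := hx
    have h1 := ih a ha
    have h2 : 12 ^ k * b ≤ 12 ^ k * 3 := Nat.mul_le_mul_left _ (by omega)
    rw [pow_succ]
    omega

lemma SS_lt (k : ℕ) {x : ℕ} (hx : x ∈ SS k) : x < 12 ^ k := by
  have := SS_bound k x hx
  omega

lemma SS_mono_succ (k : ℕ) : SS k ⊆ SS (k + 1) := by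
  intro x hx
  simp only [SS, mem_image, mem_product, mem_range, Prod.exists]
  exact ⟨x, 0, ⟨hx, by norm_num⟩, by simp⟩

lemma SS_mono : Monotone SS := monotone_nat_of_le_succ SS_mono_succ

lemma SS_inj (k : ℕ) : Set.InjOn (fun x : ℕ × ℕ => x.1 + 12 ^ k * x.2)
    (((SS k) ×ˢ Finset.range 4 : Finset (ℕ × ℕ)) : Set (ℕ × ℕ)) := by
  rintro ⟨a, b⟩ h1 ⟨c, d⟩ h2 h
  simp only [coe_product, Set.mem_prod, mem_coe, mem_range] at h1 h2
  simp only at h
  have ha := SS_lt k h1.1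
  have hc := SS_lt k h2.1
  have hp : 0 < 12 ^ k := by positivity
  have e1 : (a + 12 ^ k * b) % 12 ^ k = a := by
    rw [Nat.add_mul_mod_self_left, Nat.mod_eq_of_lt ha]
  have e2 : (c + 12 ^ k * d) % 12 ^ k = c := by
    rw [Nat.add_mul_mod_self_left, Nat.mod_eq_of_lt hc]
  have hac : a = c := by rw [← e1, ← e2, h]
  subst hac
  have : 12 ^ k * b = 12 ^ k * d := by omega
  have hbd : b = d := Nat.eq_of_mul_eq_mul_left hp this
  rw [hbd]

lemma SS_diff (k : ℕ) : ∀ x ∈ SS k, ∀ y ∈ SS k, x ≠ y →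
    ∃ (i : ℕ) (u : ℤ), i < k ∧ ¬ (4 : ℤ) ∣ u ∧ (x : ℤ) - y = 12 ^ i * u := by
  induction k with
  | zero =>
    intro x hx y hy hxy
    simp [SS] at hx hy
    omega
  | succ k ih =>
    intro x hx y hy hxy
    simp only [SS, mem_image, mem_product, mem_range, Prod.exists] at hx hy
    obtain ⟨a, b, ⟨ha, hb⟩, rfl⟩ := hx
    obtain ⟨c, d, ⟨hc, hd⟩, rfl⟩ := hy
    by_cases hac : a = c
    · subst hac
      refine ⟨k, (b : ℤ) - d, by omega, ?_, ?_⟩
      · intro hdvd
        have : b ≠ d := by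
          rintro rfl
          exact hxy rfl
        omega
      · push_cast; ring
    · obtain ⟨i, u, hi, hu, he⟩ := ih a ha c hc hac
      obtain ⟨m, rfl⟩ : ∃ m, k = i + m + 1 := ⟨k - i - 1, by omega⟩
      refine ⟨i, u + 12 ^ (m + 1) * ((b : ℤ) - d), by omega, ?_, ?_⟩
      · intro hdvd
        apply hu
        have h4 : (4 : ℤ) ∣ 12 ^ (m + 1) * ((b : ℤ) - d) := by
          refine Dvd.dvd.mul_right ?_ _
          exact dvd_pow (by norm_num) (by omega)
        exact (Int.dvd_add_left h4).mp hdvd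
      · have : (12 : ℤ) ^ (i + m + 1) = 12 ^ i * 12 ^ (m + 1) := by rw [← pow_add]; congr 1
        push_cast
        rw [this]
        linear_combination he

/-- `E_n(t) = prod_{i<n} A(t / 12^i)` -/
noncomputable def EE (n : ℕ) (t : ℝ) : ℝ := ∏ i ∈ range n, A (t / (12 : ℝ) ^ i)

theorem EE_nonneg (n : ℕ) (t : ℝ) : 0 ≤ EE n t :=
  Finset.prod_nonneg fun _ _ => A_nonneg _

theorem M_EE (n : ℕ) (t : ℝ) : M t = EE n t * M (t / (12 : ℝ) ^ n) := by
  induction n with
  | zero => simp [EE]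
  | succ n ih =>
    rw [ih, M_rec (t / 12 ^ n), div_div, ← pow_succ]
    unfold EE
    rw [Finset.prod_range_succ]
    ring

/-- `E_n` is invariant under adding integer multiples of `12^n` -/
theorem EE_per (n : ℕ) (t : ℝ) (z : ℤ) : EE n (t + (12 : ℝ) ^ n * z) = EE n t := by
  unfold EE
  refine Finset.prod_congr rfl fun i hi => ?_
  rw [mem_range] at hi
  obtain ⟨m, rfl⟩ : ∃ m, n = i + m + 1 := ⟨n - i - 1, by omega⟩
  have e : (t + (12 : ℝ) ^ (i + m + 1) * z) / (12 : ℝ) ^ i = t / (12 : ℝ) ^ i +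
      4 * ((3 * 12 ^ m * z : ℤ) : ℝ) := by
    rw [add_div]
    congr 1
    rw [pow_succ, pow_add]
    push_cast
    field_simp
    ring
  rw [e, A_per]

theorem EE_sum (k : ℕ) (ξ : ℝ) : ∑ x ∈ SS k, EE k (ξ + x) = 1 := by
  induction k with
  | zero => simp [SS, EE]
  | succ k ih =>
    rw [SS, Finset.sum_image (SS_inj k), Finset.sum_product]
    rw [← ih]
    refine Finset.sum_congr rfl fun x _ => ?_
    have h : ∀ j : ℕ, EE (k + 1) (ξ + ((x + 12 ^ k * j : ℕ) : ℝ)) =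
        EE k (ξ + x) * A ((ξ + x) / 12 ^ k + j) := by
      intro j
      have h1 : EE (k + 1) (ξ + ((x + 12 ^ k * j : ℕ) : ℝ)) =
          EE k (ξ + ((x + 12 ^ k * j : ℕ) : ℝ)) * A ((ξ + ((x + 12 ^ k * j : ℕ) : ℝ)) / 12 ^ k) := by
        unfold EE
        rw [Finset.prod_range_succ]
      rw [h1]
      congr 1
      · have := EE_per k (ξ + x) (j : ℤ)
        rw [← this]
        congr 1
        push_cast
        ring
      · congr 1
        push_cast
        field_simp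
        ring
    simp_rw [h]
    rw [← Finset.mul_sum]
    have h4 := A_sum ((ξ + x) / 12 ^ k)
    have h5 : ∑ j ∈ range 4, A ((ξ + x) / 12 ^ k + (j : ℝ)) = 1 := by
      simp only [Finset.sum_range_succ, Finset.sum_range_zero, zero_add, Nat.cast_zero,
        Nat.cast_one, Nat.cast_ofNat, add_zero]
      exact h4
    rw [h5, mul_one]

theorem tendsto_EE (t : ℝ) : Tendsto (fun k => EE k t) atTop (𝓝 (M t)) := by
  have h1 := tendsto_M t
  have h2 := (tendsto_const_nhds (x := M t)).div h1 one_ne_zero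
  rw [div_one] at h2
  refine h2.congr' ?_
  filter_upwards [h1.eventually_ne one_ne_zero] with k hk
  rw [Pi.div_apply, M_EE k t, mul_div_cancel_right₀ _ hk]

lemma low_eventually (ξ : ℝ) : ∃ K0 : ℕ, ∀ k, K0 ≤ k → ∀ x ∈ SS k,
    |(ξ + (x : ℝ)) / 12 ^ k| ≤ 1 / 2 := by
  obtain ⟨K0, hK0⟩ := ((tendsto_div_pow |ξ|).eventually (gt_mem_nhds (show (0 : ℝ) < 1 / 5 by
    norm_num))).exists_forall_of_atTop
  refine ⟨K0, fun k hk x hx => ?_⟩
  have h1 := hK0 k hk
  have h2 := SS_bound k x hx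
  have hp : (0 : ℝ) < 12 ^ k := by positivity
  have h3 : (x : ℝ) / 12 ^ k ≤ 3 / 11 := by
    rw [div_le_iff₀ hp]
    have : ((11 * x + 3 : ℕ) : ℝ) ≤ ((3 * 12 ^ k : ℕ) : ℝ) := by exact_mod_cast h2
    push_cast at this
    linarith
  have h4 : (0 : ℝ) ≤ (x : ℝ) / 12 ^ k := by positivity
  have h5 : |ξ / 12 ^ k| < 1 / 5 := by
    rw [abs_div, abs_of_pos hp]
    exact h1
  rw [abs_lt] at h5
  rw [add_div, abs_le]
  constructor <;> linarith [h5.1, h5.2]

/-- the completeness lemma -/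
theorem full (ξ δ : ℝ) (hδ : 0 < δ) : ∃ k : ℕ, 1 - δ ≤ ∑ x ∈ SS k, M (ξ + x) := by
  obtain ⟨c, hc, hlow⟩ := M_low
  set T : ℕ → ℝ := fun k => ∑ x ∈ SS k, M (ξ + x) with hT
  have hmono : Monotone T := fun a b hab =>
    Finset.sum_le_sum_of_subset_of_nonneg (SS_mono hab) fun _ _ _ => M_nonneg _
  have hT1 : ∀ k, T k ≤ 1 := by
    intro k
    rw [← EE_sum k ξ]
    refine Finset.sum_le_sum fun x _ => ?_
    rw [M_EE k (ξ + x)]
    exact mul_le_of_le_one_right (EE_nonneg _ _) (M_le_one _)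
  have hbdd : BddAbove (Set.range T) := ⟨1, by rintro _ ⟨k, rfl⟩; exact hT1 k⟩
  set L := ⨆ k, T k with hL
  have htend : Tendsto T atTop (𝓝 L) := tendsto_atTop_ciSup hmono hbdd
  obtain ⟨K0, hK0⟩ := low_eventually ξ
  have h1 : ∀ k' k, k' ≤ k → K0 ≤ k →
      1 ≤ ∑ x ∈ SS k', EE k (ξ + x) + (T k - T k') / c := by
    intro k' k hk hk0
    have e1 : ∑ x ∈ SS k, EE k (ξ + x) = ∑ x ∈ SS k', EE k (ξ + x) +
        ∑ x ∈ SS k \ SS k', EE k (ξ + x) := by
      rw [add_comm, Finset.sum_sdiff (SS_mono hk)]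
    have e2 : T k - T k' = ∑ x ∈ SS k \ SS k', M (ξ + x) := by
      simp only [hT]
      rw [← Finset.sum_sdiff (SS_mono hk)]
      ring
    have e3 : ∑ x ∈ SS k \ SS k', EE k (ξ + x) ≤ (T k - T k') / c := by
      rw [le_div_iff₀ hc, e2, Finset.sum_mul]
      refine Finset.sum_le_sum fun x hx => ?_
      rw [M_EE k (ξ + x)]
      exact mul_le_mul_of_nonneg_left (hlow _ (hK0 k hk0 x (mem_sdiff.1 hx).1)) (EE_nonneg _ _)
    have e4 := EE_sum k ξ
    linarith
  have h2 : ∀ k', 1 ≤ T k' + (L - T k') / c := by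
    intro k'
    have t1 : Tendsto (fun k => ∑ x ∈ SS k', EE k (ξ + x) + (T k - T k') / c) atTop
        (𝓝 (T k' + (L - T k') / c)) := by
      refine Tendsto.add ?_ ?_
      · exact tendsto_finsetSum _ fun x _ => tendsto_EE (ξ + x)
      · exact (htend.sub_const _).div_const _
    refine ge_of_tendsto t1 ?_
    filter_upwards [eventually_ge_atTop k', eventually_ge_atTop K0] with k hk hk'
    exact h1 k' k hk hk'
  have h3 : 1 ≤ L := by
    have t1 : Tendsto (fun k' => T k' + (L - T k') / c) atTop (𝓝 (L + (L - L) / c)) :=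
      htend.add ((htend.const_sub _).div_const _)
    rw [sub_self, zero_div, add_zero] at t1
    exact ge_of_tendsto' t1 h2
  obtain ⟨k, hk⟩ := (htend.eventually_const_lt (show 1 - δ < L by linarith)).exists
  exact ⟨k, hk.le⟩

/-- the standard spectrum -/
def Lam : Set ℕ := {x | ∃ k, x ∈ SS k}

lemma FT_diff {x y : ℕ} (hx : x ∈ Lam) (hy : y ∈ Lam) (hxy : x ≠ y) :
    FT tau (3 * ((x : ℝ) - y)) = 0 := by
  obtain ⟨k, hk⟩ := hx
  obtain ⟨l, hl⟩ := hy
  obtain ⟨i, u, -, hu, he⟩ := SS_diff (max k l) x (SS_mono (le_max_left _ _) hk) y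
    (SS_mono (le_max_right _ _) hl) hxy
  have h1 := M_int hu i
  have h2 : (x : ℝ) - y = 12 ^ i * u := by exact_mod_cast he
  unfold M at h1
  rw [h2]
  exact norm_eq_zero.mp (pow_eq_zero_iff (two_ne_zero) |>.mp h1)

end Run7.h259.Sp
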