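import Pool.Agent.Run7.h259.Sp.Main

/-! Transfer to `Fin 1 → ℝ`. -/

set_option autoImplicit false

open MeasureTheory Matrix
open scoped ENNReal Real

namespace Run7.h259.Sp

/-- the matrix `(12)` -/
def R12 : Matrix (Fin 1) (Fin 1) ℤ := fun _ _ => 12

/-- the digits `0, 1, 8, 9` -/
def B4 : Finset (Fin 1 → ℤ) := {fun _ => 0, fun _ => 1, fun _ => 8, fun _ => 9}

lemma B4_card : B4.card = 4 := by decide

lemma mem_B4 {b : Fin 1 → ℤ} : b ∈ B4 ↔ b 0 = 0 ∨ b 0 = 1 ∨ b 0 = 8 ∨ b 0 = 9 := by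
  simp only [B4, Finset.mem_insert, Finset.mem_singleton, funext_iff, Fin.forall_fin_one]

lemma sum_B4 {M : Type*} [AddCommMonoid M] (g : (Fin 1 → ℤ) → M) :
    ∑ b ∈ B4, g b = g (fun _ => 0) + g (fun _ => 1) + g (fun _ => 8) + g (fun _ => 9) := by
  have h1 : (fun _ : Fin 1 => (0 : ℤ)) ∉
      ({fun _ => 1, fun _ => 8, fun _ => 9} : Finset (Fin 1 → ℤ)) := by decide
  have h2 : (fun _ : Fin 1 => (1 : ℤ)) ∉ ({fun _ => 8, fun _ => 9} : Finset (Fin 1 → ℤ)) := by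
    decide
  have h3 : (fun _ : Fin 1 => (8 : ℤ)) ∉ ({fun _ => 9} : Finset (Fin 1 → ℤ)) := by decide
  rw [B4, Finset.sum_insert h1, Finset.sum_insert h2, Finset.sum_insert h3, Finset.sum_singleton]
  abel

lemma inv_R12 : (R12.map (Int.cast : ℤ → ℝ))⁻¹ = Matrix.of fun _ _ => (1 / 12 : ℝ) := by
  apply Matrix.inv_eq_right_inv
  ext i j
  rw [Subsingleton.elim j i, Matrix.mul_apply, Matrix.one_apply_eq]
  simp [R12]

lemma inv_R12_mulVec (x : Fin 1 → ℝ) :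
    (R12.map (Int.cast : ℤ → ℝ))⁻¹ *ᵥ x = fun _ => x 0 / 12 := by
  rw [inv_R12]
  funext i
  simp only [Matrix.mulVec, dotProduct, Fin.sum_univ_one, Matrix.of_apply]
  ring

/-- the embedding of the line -/
def iota (x : ℝ) : Fin 1 → ℝ := fun _ => x

@[fun_prop]
lemma measurable_iota : Measurable iota := by
  unfold iota
  fun_prop

/-- the measure on `Fin 1 → ℝ` -/
noncomputable def nu : Measure (Fin 1 → ℝ) := mu.map iota

instance : IsProbabilityMeasure nu := Measure.isProbabilityMeasure_map (by fun_prop)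

lemma nu_map (b : Fin 1 → ℤ) :
    nu.map (fun x => (R12.map (Int.cast : ℤ → ℝ))⁻¹ *ᵥ (x + fun i => (b i : ℝ))) =
      (mu.map (fun x : ℝ => (x + (b 0 : ℝ)) / 12)).map iota := by
  have e : (fun x : Fin 1 → ℝ => (R12.map (Int.cast : ℤ → ℝ))⁻¹ *ᵥ (x + fun i => (b i : ℝ))) =
      fun x : Fin 1 → ℝ => fun _ => (x 0 + (b 0 : ℝ)) / 12 := by
    funext x
    rw [inv_R12_mulVec]
    rfl
  rw [e, nu, Measure.map_map (by fun_prop) (by fun_prop),
    Measure.map_map (by fun_prop) (by fun_prop)]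
  rfl

lemma nu_eq : nu = ((B4.card : ℝ≥0∞)⁻¹) • ∑ b ∈ B4,
    nu.map (fun x => (R12.map (Int.cast : ℤ → ℝ))⁻¹ *ᵥ (x + fun i => (b i : ℝ))) := by
  rw [B4_card, sum_B4, nu_map, nu_map, nu_map, nu_map]
  have h := congrArg (fun m : Measure ℝ => m.map iota) mu_eq
  simp only [Measure.map_smul] at h
  rw [Measure.map_add _ _ (by fun_prop), Measure.map_add _ _ (by fun_prop),
    Measure.map_add _ _ (by fun_prop)] at h
  rw [nu]
  push_cast
  exact h

lemma charpoly_root {z : ℂ} (h : (R12.map (Int.cast : ℤ → ℂ)).charpoly.IsRoot z) : z = 12 := by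
  rw [Matrix.charpoly, Matrix.det_fin_one] at h
  simp [Matrix.charmatrix, R12, Polynomial.IsRoot] at h
  linear_combination h

lemma digits_simple : ∀ b ∈ B4, ∀ b' ∈ B4, b ≠ b' → ¬ ∃ v : Fin 1 → ℤ, R12 *ᵥ v = b - b' := by
  rintro b hb b' hb' hne ⟨v, hv⟩
  have h1 := congrFun hv 0
  simp only [Matrix.mulVec, dotProduct, Fin.sum_univ_one, R12, Pi.sub_apply] at h1
  have h2 : b 0 ≠ b' 0 := by
    intro h
    apply hne
    funext i
    rw [Subsingleton.elim i 0, h]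
  rw [mem_B4] at hb hb'
  rcases hb with h | h | h | h <;> rcases hb' with h' | h' | h' | h' <;> omega

lemma det_R12 : R12.det = 12 := by
  rw [Matrix.det_fin_one]
  rfl

lemma closure_eq : AddSubgroup.closure
    {v : Fin 1 → ℤ | ∃ k : ℕ, ∃ b ∈ B4, v = (R12 ^ k) *ᵥ b} = ⊤ := by
  rw [eq_top_iff]
  intro v _
  have h1 : (fun _ : Fin 1 => (1 : ℤ)) ∈ AddSubgroup.closure
      {v : Fin 1 → ℤ | ∃ k : ℕ, ∃ b ∈ B4, v = (R12 ^ k) *ᵥ b} := by
    apply AddSubgroup.subset_closure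
    refine ⟨0, fun _ => 1, by rw [mem_B4]; right; left; rfl, ?_⟩
    rw [pow_zero, Matrix.one_mulVec]
  have h2 := AddSubgroup.zsmul_mem _ h1 (v 0)
  have h3 : v 0 • (fun _ : Fin 1 => (1 : ℤ)) = v := by
    funext i
    rw [Subsingleton.elim i 0]
    simp
  rwa [h3] at h2

lemma ex_def (a : ℝ) : Complex.exp (2 * π * Complex.I * (a : ℂ)) = ex a := rfl

lemma ex_def' (a : ℝ) : Complex.exp (-(2 * π * Complex.I * (a : ℂ))) = ex (-a) := by
  unfold ex
  congr 1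
  push_cast
  ring

/-- the spectrum in `Fin 1 → ℝ` -/
def LamNu : Set (Fin 1 → ℝ) := {l | l 0 ∈ LamMu}

lemma nu_orth : ∀ l ∈ LamNu, ∀ l' ∈ LamNu,
    (l = l' → ∫ x, Complex.exp (2 * π * Complex.I * ((∑ i, (l i - l' i) * x i : ℝ) : ℂ)) ∂nu = 1) ∧
    (l ≠ l' → ∫ x, Complex.exp (2 * π * Complex.I * ((∑ i, (l i - l' i) * x i : ℝ) : ℂ)) ∂nu = 0)
    := by
  intro l hl l' hl'
  constructor
  · rintro rfl
    simp
  · intro hne
    have h0 : l 0 ≠ l' 0 := by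
      intro h
      apply hne
      funext i
      rw [Subsingleton.elim i 0, h]
    have h1 := FT_mu_orth hl hl' h0
    simp only [Fin.sum_univ_one, ex_def]
    rw [nu, integral_map (by fun_prop)
      (by fun_prop : Continuous fun x : Fin 1 → ℝ => ex ((l 0 - l' 0) * x 0)).aestronglyMeasurable]
    exact h1

lemma nu_complete (f : (Fin 1 → ℝ) → ℂ) (hf : MemLp f 2 nu)
    (h : ∀ l ∈ LamNu, ∫ x, f x * Complex.exp (-(2 * π * Complex.I *
      ((∑ i, l i * x i : ℝ) : ℂ))) ∂nu = 0) : f =ᵐ[nu] 0 := by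
  have hg : MemLp (fun x => f (iota x)) 2 mu :=
    (memLp_map_measure_iff hf.aestronglyMeasurable (by fun_prop)).mp hf
  have key : (fun x => f (iota x)) =ᵐ[mu] 0 := by
    refine mu_complete hg fun l hl => ?_
    have h1 := h (fun _ => l) hl
    simp only [Fin.sum_univ_one, ex_def'] at h1
    rw [nu, integral_map (by fun_prop)] at h1
    · exact h1
    · have h2 : AEStronglyMeasurable f (mu.map iota) := hf.aestronglyMeasurable
      exact h2.mul (by fun_prop :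
        Continuous fun x : Fin 1 → ℝ => ex (-(l * x 0))).aestronglyMeasurable
  rw [nu] at hf ⊢
  rw [← eLpNorm_eq_zero_iff hf.aestronglyMeasurable (by norm_num : (2 : ℝ≥0∞) ≠ 0),
    eLpNorm_map_measure hf.aestronglyMeasurable (by fun_prop)]
  exact (eLpNorm_eq_zero_iff hg.aestronglyMeasurable (by norm_num : (2 : ℝ≥0∞) ≠ 0)).mpr key

lemma no_L (L : Finset (Fin 1 → ℤ)) (hc : L.card = B4.card)
    (h : ∀ l ∈ L, ∀ l' ∈ L, l ≠ l' → ∑ b ∈ B4, Complex.exp (2 * π * Complex.I *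
      ((∑ i, ((R12.map (Int.cast : ℤ → ℝ))⁻¹ *ᵥ (fun j => (b j : ℝ))) i *
        ((l i : ℝ) - (l' i : ℝ)) : ℝ) : ℂ)) = 0) : False := by
  rw [B4_card] at hc
  have hex : ∀ l ∈ L, ∀ l' ∈ L, l ≠ l' → ex (((l 0 : ℝ) - l' 0) / 12) = -1 := by
    intro l hl l' hl' hne
    have h1 := h l hl l' hl' hne
    rw [sum_B4] at h1
    simp only [inv_R12_mulVec, Fin.sum_univ_one, ex_def] at h1
    set m : ℤ := l 0 - l' 0 with hm
    have hmr : (l 0 : ℝ) - l' 0 = (m : ℝ) := by rw [hm]; push_cast; ring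
    rw [hmr] at h1 ⊢
    have e0 : ex (((0 : ℤ) : ℝ) / 12 * m) = 1 := by
      rw [show ((0 : ℤ) : ℝ) / 12 * m = 0 by push_cast; ring, ex_zero]
    have e1 : ex (((1 : ℤ) : ℝ) / 12 * m) = ex ((m : ℝ) / 12) := by
      congr 1; push_cast; ring
    have e9 : ex (((9 : ℤ) : ℝ) / 12 * m) = ex ((m : ℝ) / 12) * ex (((8 : ℤ) : ℝ) / 12 * m) := by
      rw [← ex_add]; congr 1; push_cast; ring
    rw [e0, e1, e9] at h1
    have h2 : (1 + ex ((m : ℝ) / 12)) * (1 + ex (((8 : ℤ) : ℝ) / 12 * m)) = 0 := by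
      linear_combination h1
    rcases mul_eq_zero.mp h2 with h3 | h3
    · linear_combination h3
    · exfalso
      have h4 : ex (((8 : ℤ) : ℝ) / 12 * m) = -1 := by linear_combination h3
      have h5 : ex (((8 : ℤ) : ℝ) / 12 * m) ^ 3 = 1 := by
        rw [pow_succ, pow_two, ← ex_add, ← ex_add]
        rw [show ((8 : ℤ) : ℝ) / 12 * m + ((8 : ℤ) : ℝ) / 12 * m + ((8 : ℤ) : ℝ) / 12 * m =
          ((2 * m : ℤ) : ℝ) by push_cast; ring, ex_int]
      rw [h4] at h5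
      norm_num at h5
  obtain ⟨a, b, c, ha, hb, hc', hab, hac, hbc⟩ := Finset.two_lt_card_iff.mp (by omega : 2 < L.card)
  have h1 := hex a ha b hb hab
  have h2 := hex b hb c hc' hbc
  have h3 := hex a ha c hc' hac
  have h4 : ex (((a 0 : ℝ) - c 0) / 12) = ex (((a 0 : ℝ) - b 0) / 12) * ex (((b 0 : ℝ) - c 0) / 12)
      := by
    rw [← ex_add]; congr 1; ring
  rw [h1, h2, h3] at h4
  norm_num at h4

end Run7.h259.Sp
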