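import Pool.Agent.Run7.h259.Sp.Meas

/-! The Fourier transform of `tau` at `3 t`. -/

set_option autoImplicit false

open MeasureTheory Set Filter Topology
open scoped ENNReal

namespace Run7.h259.Sp

/-- the exponential -/
noncomputable def ex (a : ℝ) : ℂ := Complex.exp (2 * Real.pi * Complex.I * a)

lemma norm_ex (a : ℝ) : ‖ex a‖ = 1 := by
  unfold ex
  have : (2 * Real.pi * Complex.I * a : ℂ) = ((2 * Real.pi * a : ℝ) : ℂ) * Complex.I := by
    push_cast; ring
  rw [this, Complex.norm_exp_ofReal_mul_I]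

lemma ex_add (a b : ℝ) : ex (a + b) = ex a * ex b := by
  unfold ex
  rw [← Complex.exp_add]
  congr 1
  push_cast
  ring

lemma ex_zero : ex 0 = 1 := by unfold ex; simp

lemma ex_int (k : ℤ) : ex k = 1 := by
  unfold ex
  have : (2 * Real.pi * Complex.I * ((k : ℝ) : ℂ)) = (k : ℂ) * (2 * Real.pi * Complex.I) := by
    push_cast; ring
  rw [this, Complex.exp_int_mul_two_pi_mul_I]

lemma ex_half : ex (1 / 2) = -1 := by
  unfold ex
  have : (2 * Real.pi * Complex.I * ((1 / 2 : ℝ) : ℂ)) = Real.pi * Complex.I := by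
    push_cast; ring
  rw [this, Complex.exp_pi_mul_I]

lemma ex_neg (a : ℝ) : ex (-a) = (starRingEnd ℂ) (ex a) := by
  unfold ex
  rw [← Complex.exp_conj]
  congr 1
  simp only [map_mul, Complex.conj_ofReal, Complex.conj_I, map_ofNat]
  push_cast
  ring

@[fun_prop]
lemma continuous_ex : Continuous ex := by
  unfold ex
  fun_prop

/-- the Fourier transform of a measure -/
noncomputable def FT (μ : Measure ℝ) (ξ : ℝ) : ℂ := ∫ x : ℝ, ex (ξ * x) ∂μ

lemma FT_eq_charFun (μ : Measure ℝ) (ξ : ℝ) : FT μ ξ = charFun μ (2 * Real.pi * ξ) := by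
  unfold FT ex
  rw [charFun_apply_real]
  congr 1
  funext x
  congr 1
  push_cast
  ring

lemma continuous_FT (μ : Measure ℝ) [IsFiniteMeasure μ] : Continuous (FT μ) := by
  have h : FT μ = fun ξ : ℝ => charFun μ (2 * Real.pi * ξ) := funext (FT_eq_charFun μ)
  rw [h]
  exact continuous_charFun.comp (by fun_prop)

lemma FT_zero (μ : Measure ℝ) [IsProbabilityMeasure μ] : FT μ 0 = 1 := by
  rw [FT_eq_charFun, mul_zero, charFun_zero]
  simp

lemma norm_FT_le (μ : Measure ℝ) [IsProbabilityMeasure μ] (ξ : ℝ) : ‖FT μ ξ‖ ≤ 1 := by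
  rw [FT_eq_charFun]
  exact norm_charFun_le_one _

lemma integrable_of_cont {f : ℝ → ℂ} (hf : Continuous f) (hb : ∀ x, ‖f x‖ ≤ 1) (ν : Measure ℝ)
    [IsFiniteMeasure ν] : Integrable f ν :=
  Integrable.mono' (g := fun _ => 1) (integrable_const 1) hf.aestronglyMeasurable
      (Filter.Eventually.of_forall hb)

lemma integral_tau {f : ℝ → ℂ} (hf : Continuous f) (hb : ∀ x, ‖f x‖ ≤ 1) :
    ∫ x, f x ∂tau = (∫ x, f ((x + 0) / 12) ∂tau + ∫ x, f ((x + 2) / 12) ∂tau +
      ∫ x, f ((x + 3) / 12) ∂tau + ∫ x, f ((x + 5) / 12) ∂tau) / 4 := by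
  have hp : ∀ c : ℝ, IsProbabilityMeasure (tau.map (fun x : ℝ => (x + c) / 12)) := fun c =>
    Measure.isProbabilityMeasure_map (by fun_prop)
  have hi : ∀ c : ℝ, Integrable f (tau.map (fun x : ℝ => (x + c) / 12)) := fun c =>
    integrable_of_cont hf hb _
  have hm : ∀ c : ℝ, ∫ x, f x ∂(tau.map (fun x : ℝ => (x + c) / 12)) =
      ∫ x, f ((x + c) / 12) ∂tau := fun c =>
    integral_map (by fun_prop) hf.aestronglyMeasurable
  conv_lhs => rw [tau_eq]
  rw [integral_smul_measure, integral_add_measure, integral_add_measure, integral_add_measure,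
    hm, hm, hm, hm]
  · simp only [ENNReal.toReal_inv, ENNReal.toReal_ofNat, Complex.real_smul]
    push_cast
    ring
  · exact hi _
  · exact hi _
  · exact (hi _).add_measure (hi _)
  · exact hi _
  · exact ((hi _).add_measure (hi _)).add_measure (hi _)
  · exact hi _

/-- the mask -/
noncomputable def mask (x : ℝ) : ℂ := (1 + ex (2 * x) + ex (3 * x) + ex (5 * x)) / 4

lemma FT_rec (ξ : ℝ) : FT tau ξ = mask (ξ / 12) * FT tau (ξ / 12) := by
  unfold FT
  have hc : Continuous fun x : ℝ => ex (ξ * x) := by fun_prop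
  rw [integral_tau hc (fun x => (norm_ex _).le)]
  have e : ∀ c : ℝ, ∫ x : ℝ, ex (ξ * ((x + c) / 12)) ∂tau =
      ex (c * (ξ / 12)) * ∫ x : ℝ, ex (ξ / 12 * x) ∂tau := by
    intro c
    rw [← integral_const_mul]
    congr 1
    funext x
    rw [← ex_add]
    congr 1
    ring
  rw [e, e, e, e, zero_mul, ex_zero]
  unfold mask
  ring

/-- squared modulus of the Fourier transform at `3 t` -/
noncomputable def M (t : ℝ) : ℝ := ‖FT tau (3 * t)‖ ^ 2

/-- squared modulus of the mask -/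
noncomputable def A (t : ℝ) : ℝ := Real.cos (Real.pi * t / 2) ^ 2 * Real.cos (3 * Real.pi * t / 4) ^ 2

lemma norm_one_add_ex (x : ℝ) : ‖(1 + ex x) / 2‖ ^ 2 = Real.cos (Real.pi * x) ^ 2 := by
  have h : (1 + ex x) / 2 =
      Complex.exp (((Real.pi * x : ℝ) : ℂ) * Complex.I) * ((Real.cos (Real.pi * x) : ℝ) : ℂ)
      := by
    unfold ex
    rw [Complex.ofReal_cos, Complex.cos]
    rw [mul_div_assoc', mul_add, ← Complex.exp_add, ← Complex.exp_add]
    congr 1
    rw [add_comm]
    congr 1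
    · congr 1
      push_cast
      ring
    · rw [← Complex.exp_zero]
      congr 1
      push_cast
      ring
  rw [h, norm_mul, Complex.norm_exp_ofReal_mul_I, one_mul, Complex.norm_real, Real.norm_eq_abs,
    sq_abs]

lemma normSq_mask (t : ℝ) : ‖mask (3 * t / 12)‖ ^ 2 = A t := by
  have h : mask (3 * t / 12) = (1 + ex (t / 2)) / 2 * ((1 + ex (3 * t / 4)) / 2) := by
    unfold mask
    have e : ex (5 * (3 * t / 12)) = ex (t / 2) * ex (3 * t / 4) := by
      rw [← ex_add]; congr 1; ring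
    have e2 : ex (2 * (3 * t / 12)) = ex (t / 2) := by congr 1; ring
    have e3 : ex (3 * (3 * t / 12)) = ex (3 * t / 4) := by congr 1; ring
    rw [e, e2, e3]
    ring
  rw [h, norm_mul, mul_pow, norm_one_add_ex, norm_one_add_ex]
  unfold A
  rw [show Real.pi * (t / 2) = Real.pi * t / 2 by ring,
    show Real.pi * (3 * t / 4) = 3 * Real.pi * t / 4 by ring]

lemma M_rec (t : ℝ) : M t = A t * M (t / 12) := by
  unfold M
  rw [FT_rec (3 * t), norm_mul, mul_pow, normSq_mask, mul_div_assoc]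

lemma continuous_M : Continuous M := by
  unfold M
  exact (((continuous_FT tau).comp (by fun_prop : Continuous fun t : ℝ => 3 * t)).norm).pow 2

lemma M_zero : M 0 = 1 := by
  unfold M
  rw [mul_zero, FT_zero]
  simp

lemma M_nonneg (t : ℝ) : 0 ≤ M t := by unfold M; positivity

lemma M_le_one (t : ℝ) : M t ≤ 1 := by
  unfold M
  exact pow_le_one₀ (norm_nonneg _) (norm_FT_le tau _)

lemma A_nonneg (t : ℝ) : 0 ≤ A t := by unfold A; positivity

lemma A_le_one (t : ℝ) : A t ≤ 1 := by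
  unfold A
  exact mul_le_one₀ (Real.cos_sq_le_one _) (sq_nonneg _) (Real.cos_sq_le_one _)

lemma A_sum (t : ℝ) : A t + A (t + 1) + A (t + 2) + A (t + 3) = 1 := by
  have key : ∀ t : ℝ, A t + A (t + 2) = Real.cos (Real.pi * t / 2) ^ 2 := by
    intro t
    unfold A
    have e1 : Real.cos (Real.pi * (t + 2) / 2) = -Real.cos (Real.pi * t / 2) := by
      rw [show Real.pi * (t + 2) / 2 = Real.pi * t / 2 + Real.pi by ring, Real.cos_add_pi]
    have e2 : Real.cos (3 * Real.pi * (t + 2) / 4) = Real.sin (3 * Real.pi * t / 4) := by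
      rw [show 3 * Real.pi * (t + 2) / 4 = (3 * Real.pi * t / 4 + Real.pi / 2) + Real.pi by ring,
        Real.cos_add_pi, Real.cos_add_pi_div_two, neg_neg]
    rw [e1, e2, neg_sq, ← mul_add, add_comm (Real.cos _ ^ 2) (Real.sin _ ^ 2),
      Real.sin_sq_add_cos_sq, mul_one]
  have h1 := key t
  have h2 := key (t + 1)
  rw [show t + 1 + 2 = t + 3 by ring] at h2
  have h3 : Real.cos (Real.pi * (t + 1) / 2) = -Real.sin (Real.pi * t / 2) := by
    rw [show Real.pi * (t + 1) / 2 = Real.pi * t / 2 + Real.pi / 2 by ring,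
      Real.cos_add_pi_div_two]
  rw [h3, neg_sq] at h2
  have h4 := Real.sin_sq_add_cos_sq (Real.pi * t / 2)
  linarith

lemma A_per (t : ℝ) (k : ℤ) : A (t + 4 * k) = A t := by
  have e1 : Real.cos (Real.pi * (t + 4 * k) / 2) = Real.cos (Real.pi * t / 2) := by
    rw [show Real.pi * (t + 4 * k) / 2 = Real.pi * t / 2 + k * (2 * Real.pi) by ring,
      Real.cos_add_int_mul_two_pi]
  have e2 : Real.cos (3 * Real.pi * (t + 4 * k) / 4) ^ 2 = Real.cos (3 * Real.pi * t / 4) ^ 2 := by
    rw [show 3 * Real.pi * (t + 4 * k) / 4 = 3 * Real.pi * t / 4 + ((3 * k : ℤ) : ℝ) * Real.pi by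
      push_cast; ring, Real.cos_add_int_mul_pi]
    rw [mul_pow]
    rcases Int.even_or_odd (3 * k) with h | h
    · rw [h.neg_one_zpow]; ring
    · rw [h.neg_one_zpow]; ring
  unfold A
  rw [e1, e2]

lemma A_int {u : ℤ} (hu : ¬ (4 : ℤ) ∣ u) : A u = 0 := by
  unfold A
  rcases Int.even_or_odd' u with ⟨k, hk | hk⟩
  · rcases Int.even_or_odd' k with ⟨m, hm | hm⟩
    · exfalso; apply hu; exact ⟨m, by omega⟩
    · have : Real.cos (3 * Real.pi * (u : ℝ) / 4) = 0 := by
        rw [Real.cos_eq_zero_iff]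
        refine ⟨3 * m + 1, ?_⟩
        rw [hk, hm]
        push_cast
        ring
      rw [this]; ring
  · have : Real.cos (Real.pi * (u : ℝ) / 2) = 0 := by
      rw [Real.cos_eq_zero_iff]
      refine ⟨k, ?_⟩
      rw [hk]
      push_cast
      ring
    rw [this]; ring

lemma M_int {u : ℤ} (hu : ¬ (4 : ℤ) ∣ u) (k : ℕ) : M ((12 : ℝ) ^ k * u) = 0 := by
  induction k with
  | zero => rw [M_rec, pow_zero, one_mul, A_int hu, zero_mul]
  | succ k ih =>
    rw [M_rec, pow_succ]
    rw [show (12 : ℝ) ^ k * 12 * u / 12 = 12 ^ k * u by ring, ih, mul_zero]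

lemma tendsto_div_pow (t : ℝ) : Tendsto (fun n : ℕ => t / 12 ^ n) atTop (𝓝 0) := by
  have h := (tendsto_pow_atTop_nhds_zero_of_lt_one (r := (1 / 12 : ℝ)) (by norm_num)
    (by norm_num)).const_mul t
  rw [mul_zero] at h
  refine h.congr fun n => ?_
  rw [one_div, inv_pow]
  rfl

lemma tendsto_M (t : ℝ) : Tendsto (fun n : ℕ => M (t / 12 ^ n)) atTop (𝓝 1) := by
  have h := (continuous_M.tendsto 0).comp (tendsto_div_pow t)
  rw [M_zero] at h
  exact h

lemma A_pos {t : ℝ} (ht : |t| ≤ 1 / 2) : 0 < A t := by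
  rw [abs_le] at ht
  have hpi := Real.pi_pos
  unfold A
  have h1 : 0 < Real.cos (Real.pi * t / 2) := by
    apply Real.cos_pos_of_mem_Ioo
    constructor <;> nlinarith [ht.1, ht.2]
  have h2 : 0 < Real.cos (3 * Real.pi * t / 4) := by
    apply Real.cos_pos_of_mem_Ioo
    constructor <;> nlinarith [ht.1, ht.2]
  positivity

lemma M_pos {t : ℝ} (ht : |t| ≤ 1 / 2) : 0 < M t := by
  by_contra hcon
  have h0 : M t = 0 := le_antisymm (not_lt.mp hcon) (M_nonneg t)
  have key : ∀ n : ℕ, M (t / 12 ^ n) = 0 := by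
    intro n
    induction n with
    | zero => simpa using h0
    | succ n ih =>
      rw [M_rec] at ih
      have hsm : |t / 12 ^ n| ≤ 1 / 2 := by
        rw [abs_div, abs_of_pos (by positivity : (0 : ℝ) < 12 ^ n)]
        exact (div_le_self (abs_nonneg _) (one_le_pow₀ (by norm_num))).trans ht
      rcases mul_eq_zero.mp ih with h1 | h1
      · exact absurd h1 (A_pos hsm).ne'
      · rw [div_div, ← pow_succ] at h1
        exact h1
  have h1 := tendsto_M t
  rw [show (fun n : ℕ => M (t / 12 ^ n)) = fun _ => 0 from funext key] at h1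
  have := tendsto_nhds_unique h1 tendsto_const_nhds
  norm_num at this

lemma M_low : ∃ c : ℝ, 0 < c ∧ ∀ t, |t| ≤ 1 / 2 → c ≤ M t := by
  obtain ⟨x, hx, hmin⟩ := (isCompact_Icc (a := (-(1 / 2) : ℝ)) (b := 1 / 2)).exists_isMinOn
    ⟨0, by norm_num, by norm_num⟩ continuous_M.continuousOn
  refine ⟨M x, M_pos (abs_le.mpr hx), fun t ht => ?_⟩
  exact hmin (abs_le.mp ht)

end Run7.h259.Sp
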