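import Pool.Agent.Run7.h259.Sp.Comp

/-! Hilbert space part (adapted from `R249.Sp.Hilb` of the starting tree). -/

set_option autoImplicit false

open MeasureTheory Set Filter Topology
open scoped ENNReal InnerProductSpace

namespace Run7.h259.Sp

/-- abstract completeness criterion -/
lemma orth_zero {H ι : Type*} [NormedAddCommGroup H] [InnerProductSpace ℂ H]
    {v : ι → H} (hv : Orthonormal ℂ v) (S : Set H)
    (htot : ∀ y : H, (∀ x ∈ S, ⟪y, x⟫_ℂ = 0) → y = 0)
    (hS : ∀ x ∈ S, ∀ δ : ℝ, 0 < δ → ∃ s : Finset ι, ‖x‖ ^ 2 - δ ≤ ∑ i ∈ s, ‖⟪v i, x⟫_ℂ‖ ^ 2)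
    (y : H) (hy' : ∀ i, ⟪v i, y⟫_ℂ = 0) : y = 0 := by
  by_contra hne
  apply hne
  refine htot y fun x hx => ?_
  by_contra hxy
  have hyn : 0 < ‖y‖ := norm_pos_iff.mpr hne
  -- component orthogonal to y
  set c : ℂ := ⟪y, x⟫_ℂ / (‖y‖ ^ 2 : ℝ) with hc
  set z : H := x - c • y with hz
  have hyz : ⟪y, z⟫_ℂ = 0 := by
    rw [hz, inner_sub_right, inner_smul_right, hc, inner_self_eq_norm_sq_to_K]
    have : ((‖y‖ ^ 2 : ℝ) : ℂ) ≠ 0 := by
      exact_mod_cast (by positivity : (‖y‖ ^ 2 : ℝ) ≠ 0)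
    have e : ((‖y‖ : ℂ)) ^ 2 = ((‖y‖ ^ 2 : ℝ) : ℂ) := by push_cast; rfl
    simp only [Complex.coe_algebraMap]
    rw [e, div_mul_cancel₀ _ this, sub_self]
  have hvz : ∀ i, ⟪v i, z⟫_ℂ = ⟪v i, x⟫_ℂ := by
    intro i
    rw [hz, inner_sub_right, inner_smul_right, hy' i, mul_zero, sub_zero]
  have hpyth : ‖x‖ ^ 2 = ‖c • y‖ ^ 2 + ‖z‖ ^ 2 := by
    have : x = c • y + z := by rw [hz]; abel
    rw [this, sq, sq, sq]
    refine norm_add_sq_eq_norm_sq_add_norm_sq_of_inner_eq_zero (𝕜 := ℂ) _ _ ?_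
    rw [inner_smul_left, hyz, mul_zero]
  have hcpos : 0 < ‖c • y‖ ^ 2 := by
    have : c ≠ 0 := by
      rw [hc]
      apply div_ne_zero hxy
      exact_mod_cast (by positivity : (‖y‖ ^ 2 : ℝ) ≠ 0)
    have h2 : c • y ≠ 0 := smul_ne_zero this hne
    have := norm_pos_iff.mpr h2
    positivity
  obtain ⟨s, hs⟩ := hS x hx (‖c • y‖ ^ 2 / 2) (by linarith)
  have hbes : ∑ i ∈ s, ‖⟪v i, z⟫_ℂ‖ ^ 2 ≤ ‖z‖ ^ 2 := hv.sum_inner_products_le z
  simp_rw [hvz] at hbes
  linarith

lemma memLp_ex (l : ℝ) (μ : Measure ℝ) [IsFiniteMeasure μ] : MemLp (fun x => ex (l * x)) 2 μ :=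
  MemLp.of_bound (by fun_prop : Continuous fun x => ex (l * x)).aestronglyMeasurable 1
    (Filter.Eventually.of_forall fun x => (norm_ex _).le)

/-- the exponentials as elements of `L²(μ)` -/
noncomputable def ev (μ : Measure ℝ) [IsFiniteMeasure μ] (l : ℝ) : Lp ℂ 2 μ := (memLp_ex l μ).toLp _

lemma ev_ae (μ : Measure ℝ) [IsFiniteMeasure μ] (l : ℝ) :
    (ev μ l : ℝ → ℂ) =ᵐ[μ] fun x => ex (l * x) := MemLp.coeFn_toLp _

lemma inner_ev (μ : Measure ℝ) [IsFiniteMeasure μ] (a b : ℝ) :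
    ⟪ev μ a, ev μ b⟫_ℂ = FT μ (b - a) := by
  rw [L2.inner_def]
  unfold FT
  refine integral_congr_ae ?_
  filter_upwards [ev_ae μ a, ev_ae μ b] with x ha hb
  rw [ha, hb]
  simp only [RCLike.inner_apply]
  rw [← ex_neg, ← ex_add]
  congr 1
  ring

lemma norm_ev (μ : Measure ℝ) [IsProbabilityMeasure μ] (a : ℝ) : ‖ev μ a‖ = 1 := by
  have h := inner_ev μ a a
  rw [sub_self, FT_zero, inner_self_eq_norm_sq_to_K] at h
  have h2 : (‖ev μ a‖ : ℝ) ^ 2 = 1 := by
    have : ((‖ev μ a‖ : ℂ)) ^ 2 = 1 := h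
    exact_mod_cast this
  have h3 := norm_nonneg (ev μ a)
  nlinarith

lemma real_zero {μ : Measure ℝ} [IsFiniteMeasure μ] {u : ℝ → ℝ} (hu : Integrable u μ)
    (h : ∀ ξ : ℝ, ∫ x : ℝ, ex (ξ * x) * (u x : ℂ) ∂μ = 0) :
    u =ᵐ[μ] 0 := by
  have hf1 : IsFiniteMeasure (μ.withDensity fun x => ENNReal.ofReal (u x)) :=
    isFiniteMeasure_withDensity_ofReal hu.2
  have hf2 : IsFiniteMeasure (μ.withDensity fun x => ENNReal.ofReal (-u x)) :=
    isFiniteMeasure_withDensity_ofReal hu.neg.2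
  have hm1 : AEMeasurable (fun x => ENNReal.ofReal (u x)) μ := hu.1.aemeasurable.ennreal_ofReal
  have hm2 : AEMeasurable (fun x => ENNReal.ofReal (-u x)) μ :=
    hu.neg.1.aemeasurable.ennreal_ofReal
  have hint : ∀ (g : ℝ → ℝ) (_ : Integrable g μ) (ξ : ℝ), Integrable
      (fun x : ℝ => (g x) • ex (ξ * x)) μ := by
    intro g hg ξ
    have hg2 : Integrable (fun x : ℝ => ((g x : ℝ) : ℂ) * ex (ξ * x)) μ := by
      refine hg.ofReal.mul_bdd (c := 1) ?_ ?_
      · exact (by fun_prop : Continuous _).aestronglyMeasurable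
      · exact Filter.Eventually.of_forall fun x => by rw [norm_ex]
    exact hg2.congr (Filter.Eventually.of_forall fun x => by simp only [Complex.real_smul])
  have hchar : charFun (μ.withDensity fun x => ENNReal.ofReal (u x)) =
      charFun (μ.withDensity fun x => ENNReal.ofReal (-u x)) := by
    funext t
    obtain ⟨ξ, rfl⟩ : ∃ ξ : ℝ, t = 2 * Real.pi * ξ :=
      ⟨t / (2 * Real.pi), by have := Real.pi_pos; field_simp⟩
    have hexp : ∀ x : ℝ, Complex.exp (((2 * Real.pi * ξ : ℝ) : ℂ) * x * Complex.I) =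
        ex (ξ * x) := by
      intro x
      unfold ex
      congr 1
      push_cast
      ring
    rw [charFun_apply_real, charFun_apply_real]
    simp_rw [hexp]
    rw [integral_withDensity_eq_integral_toReal_smul₀ hm1
      (Filter.Eventually.of_forall fun x => ENNReal.ofReal_lt_top),
      integral_withDensity_eq_integral_toReal_smul₀ hm2
      (Filter.Eventually.of_forall fun x => ENNReal.ofReal_lt_top)]
    rw [← sub_eq_zero, ← integral_sub]
    · rw [← h ξ]
      refine integral_congr_ae (Filter.Eventually.of_forall fun x => ?_)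
      simp only
      rw [← sub_smul, ENNReal.toReal_ofReal', ENNReal.toReal_ofReal', Complex.real_smul, mul_comm]
      congr 2
      rcases le_total (u x) 0 with h0 | h0
      · rw [max_eq_right h0, max_eq_left (by linarith)]; ring
      · rw [max_eq_left h0, max_eq_right (by linarith)]; ring
    · refine (hint _ hu.pos_part ξ).congr (Filter.Eventually.of_forall fun x => ?_)
      simp only [ENNReal.toReal_ofReal']
    · refine (hint _ hu.neg_part ξ).congr (Filter.Eventually.of_forall fun x => ?_)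
      simp only [ENNReal.toReal_ofReal']
  have heq := Measure.ext_of_charFun hchar
  have hfi : ∫⁻ x, ENNReal.ofReal (u x) ∂μ ≠ ⊤ := by
    have := hu.2
    exact ((lintegral_ofReal_le_lintegral_enorm u).trans_lt this).ne
  rw [withDensity_eq_iff hm1 hm2 hfi] at heq
  filter_upwards [heq] with x hx
  simp only [Pi.zero_apply]
  rcases le_total (u x) 0 with h0 | h0
  · rw [ENNReal.ofReal_of_nonpos h0] at hx
    have := ENNReal.ofReal_eq_zero.mp hx.symm
    linarith
  · rw [ENNReal.ofReal_of_nonpos (by linarith : -u x ≤ 0)] at hx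
    have := ENNReal.ofReal_eq_zero.mp hx
    linarith

/-- the exponentials are total -/
lemma total {μ : Measure ℝ} [IsFiniteMeasure μ] {y : ℝ → ℂ} (hy : Integrable y μ)
    (hinn : ∀ ξ : ℝ, ∫ x : ℝ, ex (ξ * x) * y x ∂μ = 0) : y =ᵐ[μ] 0 := by
  have hconj : ∀ ξ : ℝ, ∫ x : ℝ, ex (ξ * x) * (starRingEnd ℂ) (y x) ∂μ = 0 := by
    intro ξ
    have h1 := hinn (-ξ)
    have h2 := congrArg (starRingEnd ℂ) h1
    rw [← integral_conj, map_zero] at h2
    rw [← h2]
    refine integral_congr_ae (Filter.Eventually.of_forall fun x => ?_)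
    simp only [map_mul]
    rw [← ex_neg]
    congr 2
    ring
  have hintm : ∀ (g : ℝ → ℂ) (_ : Integrable g μ) (ξ : ℝ), Integrable
      (fun x : ℝ => ex (ξ * x) * g x) μ := by
    intro g hg ξ
    refine hg.bdd_mul (c := 1) ?_ ?_
    · exact (by fun_prop : Continuous _).aestronglyMeasurable
    · exact Filter.Eventually.of_forall fun x => by rw [norm_ex]
  have hyc : Integrable (fun x => (starRingEnd ℂ) (y x)) μ := by
    exact (Complex.conjCLE : ℂ →L[ℝ] ℂ).integrable_comp hy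
  have hre : (fun x => (y x).re) =ᵐ[μ] 0 := by
    refine real_zero hy.re fun ξ => ?_
    have : ∀ x : ℝ, ex (ξ * x) * (((y x).re : ℝ) : ℂ) =
        (ex (ξ * x) * y x + ex (ξ * x) * (starRingEnd ℂ) (y x)) / 2 := by
      intro x
      rw [Complex.re_eq_add_conj]
      ring
    simp_rw [this]
    rw [integral_div, integral_add (hintm _ hy ξ) (hintm _ hyc ξ), hinn, hconj]
    simp
  have him : (fun x => (y x).im) =ᵐ[μ] 0 := by
    refine real_zero hy.im fun ξ => ?_
    have : ∀ x : ℝ, ex (ξ * x) * (((y x).im : ℝ) : ℂ) =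
        (ex (ξ * x) * y x - ex (ξ * x) * (starRingEnd ℂ) (y x)) / (2 * Complex.I) := by
      intro x
      rw [Complex.im_eq_sub_conj]
      ring
    simp_rw [this]
    rw [integral_div, integral_sub (hintm _ hy ξ) (hintm _ hyc ξ), hinn, hconj]
    simp
  filter_upwards [hre, him] with x h1 h2
  apply Complex.ext
  · simpa using h1
  · simpa using h2

/-- the exponentials `exp (2 π i 3 n x)`, `n` in the standard spectrum, are complete in
`L²(tau)` -/
theorem tau_complete {f : ℝ → ℂ} (hf : MemLp f 2 tau)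
    (h : ∀ n ∈ Lam, ∫ x, f x * ex (-(3 * (n : ℝ) * x)) ∂tau = 0) : f =ᵐ[tau] 0 := by
  set v : Lam → Lp ℂ 2 tau := fun n => ev tau (3 * ((n : ℕ) : ℝ)) with hv
  have hon : Orthonormal ℂ v := by
    constructor
    · intro n
      exact norm_ev tau _
    · intro m n hmn
      simp only [hv]
      rw [inner_ev, ← mul_sub]
      exact FT_diff n.2 m.2 (fun e => hmn (Subtype.ext e.symm))
  have key : hf.toLp f = 0 := by
    refine orth_zero hon (Set.range (ev tau)) ?_ ?_ _ ?_
    · intro y hy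
      have hyi : Integrable y tau := (Lp.memLp y).integrable (by norm_num)
      rw [Lp.eq_zero_iff_ae_eq_zero]
      refine total hyi fun ξ => ?_
      have h1 := hy _ ⟨-ξ, rfl⟩
      have h2 : ⟪ev tau (-ξ), y⟫_ℂ = 0 := by
        rw [← inner_conj_symm, h1, map_zero]
      rw [L2.inner_def] at h2
      rw [← h2]
      refine integral_congr_ae ?_
      filter_upwards [ev_ae tau (-ξ)] with x hx
      rw [hx]
      simp only [RCLike.inner_apply]
      rw [← ex_neg, mul_comm]
      congr 2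
      ring
    · rintro x ⟨ξ, rfl⟩ δ hδ
      obtain ⟨k, hk⟩ := full (-ξ / 3) δ hδ
      refine ⟨(SS k).attach.map ⟨fun n => (⟨n.1, k, n.2⟩ : Lam), ?_⟩, ?_⟩
      · intro a b hab
        have h3 : ((⟨a.1, k, a.2⟩ : Lam) : ℕ) = ((⟨b.1, k, b.2⟩ : Lam) : ℕ) :=
          congrArg (fun z : Lam => (z : ℕ)) hab
        exact Subtype.ext h3
      · rw [norm_ev, Finset.sum_map]
        simp only [hv]
        rw [one_pow]
        refine hk.trans (le_of_eq ?_)
        rw [← Finset.sum_attach]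
        refine Finset.sum_congr rfl fun n _ => ?_
        rw [inner_ev]
        unfold M
        have e : 3 * (-ξ / 3 + ((n : ℕ) : ℝ)) = -(ξ - 3 * ((n : ℕ) : ℝ)) := by ring
        rw [e]
        have : FT tau (-(ξ - 3 * ((n : ℕ) : ℝ))) =
            (starRingEnd ℂ) (FT tau (ξ - 3 * ((n : ℕ) : ℝ))) := by
          rw [FT_eq_charFun, FT_eq_charFun, mul_neg, charFun_neg]
        rw [this, RCLike.norm_conj]
        rfl
    · intro n
      rw [L2.inner_def]
      rw [← h n n.2]
      refine integral_congr_ae ?_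
      filter_upwards [ev_ae tau (3 * ((n : ℕ) : ℝ)), hf.coeFn_toLp] with x hx hx2
      simp only [hv]
      rw [hx, hx2]
      simp only [RCLike.inner_apply]
      rw [← ex_neg]
  rw [Lp.eq_zero_iff_ae_eq_zero] at key
  exact hf.coeFn_toLp.symm.trans key

end Run7.h259.Sp
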