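import Pool.Agent.Run7.h259.Sp.Hilb

/-! The measure `mu = μ(12, {0, 1, 8, 9})`, the law of `(2 v + Y) / 3` with `v` a fair bit and `Y`
of law `tau`, and its spectrum. -/

set_option autoImplicit false

open MeasureTheory Set Filter Topology
open scoped ENNReal

namespace Run7.h259.Sp

/-- the measure `μ(12, {0, 1, 8, 9})` -/
noncomputable def mu : Measure ℝ :=
  (2⁻¹ : ℝ≥0∞) • (tau.map (fun y => (y + 0) / 3) + tau.map (fun y => (y + 2) / 3))

lemma isProb_map (c d : ℝ) : IsProbabilityMeasure (tau.map (fun y : ℝ => (y + c) / d)) :=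
  Measure.isProbabilityMeasure_map (by fun_prop)

instance : IsProbabilityMeasure mu := by
  constructor
  have h0 := isProb_map 0 3
  have h2 := isProb_map 2 3
  unfold mu
  rw [Measure.smul_apply, Measure.add_apply, measure_univ, measure_univ, smul_eq_mul]
  rw [one_add_one_eq_two]
  exact ENNReal.inv_mul_cancel (by norm_num) (by norm_num)

lemma map_aff (c : ℝ) (d : ℝ) (c' d' : ℝ) (μ : Measure ℝ) :
    (μ.map (fun y : ℝ => (y + c) / d)).map (fun y : ℝ => (y + c') / d') =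
      μ.map (fun y : ℝ => ((y + c) / d + c') / d') := by
  rw [Measure.map_map (by fun_prop) (by fun_prop)]
  rfl

lemma mu_eq : mu = (4⁻¹ : ℝ≥0∞) • (mu.map (fun x => (x + 0) / 12) +
    mu.map (fun x => (x + 1) / 12) + mu.map (fun x => (x + 8) / 12) +
    mu.map (fun x => (x + 9) / 12)) := by
  have h1 : ∀ c : ℝ, mu.map (fun x => (x + c) / 12) = (2⁻¹ : ℝ≥0∞) •
      (tau.map (fun y => ((y + 0) / 3 + c) / 12) + tau.map (fun y => ((y + 2) / 3 + c) / 12)) := by
    intro c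
    conv_lhs => rw [mu]
    rw [Measure.map_smul, Measure.map_add _ _ (by fun_prop), map_aff, map_aff]
  have h2 : ∀ c : ℝ, tau.map (fun y => (y + c) / 3) = (4⁻¹ : ℝ≥0∞) •
      (tau.map (fun y => ((y + 0) / 12 + c) / 3) + tau.map (fun y => ((y + 2) / 12 + c) / 3) +
        tau.map (fun y => ((y + 3) / 12 + c) / 3) + tau.map (fun y => ((y + 5) / 12 + c) / 3)) := by
    intro c
    conv_lhs => rw [tau_eq]
    rw [Measure.map_smul, Measure.map_add _ _ (by fun_prop), Measure.map_add _ _ (by fun_prop),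
      Measure.map_add _ _ (by fun_prop), map_aff, map_aff, map_aff, map_aff]
  rw [h1, h1, h1, h1]
  rw [mu, h2, h2]
  have e1 : (fun y : ℝ => ((y + 0) / 3 + 0) / 12) = fun y : ℝ => ((y + 0) / 12 + 0) / 3 := by
    funext y; ring
  have e2 : (fun y : ℝ => ((y + 2) / 3 + 0) / 12) = fun y : ℝ => ((y + 2) / 12 + 0) / 3 := by
    funext y; ring
  have e3 : (fun y : ℝ => ((y + 0) / 3 + 1) / 12) = fun y : ℝ => ((y + 3) / 12 + 0) / 3 := by
    funext y; ring
  have e4 : (fun y : ℝ => ((y + 2) / 3 + 1) / 12) = fun y : ℝ => ((y + 5) / 12 + 0) / 3 := by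
    funext y; ring
  have e5 : (fun y : ℝ => ((y + 0) / 3 + 8) / 12) = fun y : ℝ => ((y + 0) / 12 + 2) / 3 := by
    funext y; ring
  have e6 : (fun y : ℝ => ((y + 2) / 3 + 8) / 12) = fun y : ℝ => ((y + 2) / 12 + 2) / 3 := by
    funext y; ring
  have e7 : (fun y : ℝ => ((y + 0) / 3 + 9) / 12) = fun y : ℝ => ((y + 3) / 12 + 2) / 3 := by
    funext y; ring
  have e8 : (fun y : ℝ => ((y + 2) / 3 + 9) / 12) = fun y : ℝ => ((y + 5) / 12 + 2) / 3 := by
    funext y; ring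
  rw [e1, e2, e3, e4, e5, e6, e7, e8]
  simp only [smul_add]
  rw [smul_smul, smul_smul, smul_smul, smul_smul, smul_smul, smul_smul, smul_smul, smul_smul,
    smul_smul, smul_smul, smul_smul, smul_smul, smul_smul, smul_smul, smul_smul, smul_smul]
  rw [mul_comm (4⁻¹ : ℝ≥0∞) 2⁻¹]
  abel

lemma integral_mu {f : ℝ → ℂ} (hf : MemLp f 2 mu) :
    ∫ x, f x ∂mu = (∫ y, f ((y + 0) / 3) ∂tau + ∫ y, f ((y + 2) / 3) ∂tau) / 2 := by
  have hfi : Integrable f mu := hf.integrable (by norm_num)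
  have hs : Integrable f (tau.map (fun y : ℝ => (y + 0) / 3) + tau.map (fun y => (y + 2) / 3)) := by
    unfold mu at hfi
    exact (integrable_smul_measure (by simp) (by simp)).mp hfi
  have hs0 := hs.left_of_add_measure
  have hs2 := hs.right_of_add_measure
  conv_lhs => rw [mu]
  rw [integral_smul_measure, integral_add_measure hs0 hs2,
    integral_map (by fun_prop) hs0.aestronglyMeasurable,
    integral_map (by fun_prop) hs2.aestronglyMeasurable]
  simp only [ENNReal.toReal_inv, ENNReal.toReal_ofNat, Complex.real_smul]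
  push_cast
  ring

/-- the spectrum of `mu` -/
def LamMu : Set ℝ := {l | ∃ n ∈ Lam, l = 9 * (n : ℝ) ∨ l = 9 * (n : ℝ) + 3 / 4}

lemma FT_mu (ξ : ℝ) : FT mu ξ = (1 + ex (2 * ξ / 3)) / 2 * FT tau (ξ / 3) := by
  unfold FT
  rw [integral_mu (memLp_ex ξ mu)]
  have e : ∀ c : ℝ, ∫ x : ℝ, ex (ξ * ((x + c) / 3)) ∂tau =
      ex (c * ξ / 3) * ∫ x : ℝ, ex (ξ / 3 * x) ∂tau := by
    intro c
    rw [← integral_const_mul]
    congr 1
    funext x
    rw [← ex_add]
    congr 1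
    ring
  rw [e, e, zero_mul, zero_div, ex_zero]
  ring

lemma FT_mu_orth {l l' : ℝ} (hl : l ∈ LamMu) (hl' : l' ∈ LamMu) (h : l ≠ l') :
    FT mu (l - l') = 0 := by
  obtain ⟨n, hn, hl⟩ := hl
  obtain ⟨m, hm, hl'⟩ := hl'
  have hmn : ∀ k : ℤ, ex (2 * (9 * (n : ℝ) - 9 * (m : ℝ)) / 3 + (k + 1 / 2)) = -1 := by
    intro k
    have : (2 * (9 * (n : ℝ) - 9 * (m : ℝ)) / 3 + (k + 1 / 2)) =
        (((6 * ((n : ℤ) - (m : ℤ)) + k : ℤ)) : ℝ) + 1 / 2 := by
      push_cast; ring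
    rw [this, ex_add, ex_int, ex_half]
    ring
  rcases hl with rfl | rfl <;> rcases hl' with rfl | rfl
  · have hne : n ≠ m := by
      rintro rfl; exact h rfl
    rw [FT_mu]
    rw [show (9 * (n : ℝ) - 9 * (m : ℝ)) / 3 = 3 * ((n : ℝ) - m) by ring, FT_diff hn hm hne,
      mul_zero]
  · rw [FT_mu]
    have := hmn (-1)
    rw [show 2 * (9 * (n : ℝ) - (9 * (m : ℝ) + 3 / 4)) / 3 =
      2 * (9 * (n : ℝ) - 9 * (m : ℝ)) / 3 + (((-1 : ℤ) : ℝ) + 1 / 2) by push_cast; ring, this]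
    ring
  · rw [FT_mu]
    have := hmn 0
    rw [show 2 * (9 * (n : ℝ) + 3 / 4 - 9 * (m : ℝ)) / 3 =
      2 * (9 * (n : ℝ) - 9 * (m : ℝ)) / 3 + (((0 : ℤ) : ℝ) + 1 / 2) by push_cast; ring, this]
    ring
  · have hne : n ≠ m := by
      rintro rfl; exact h rfl
    rw [FT_mu]
    rw [show (9 * (n : ℝ) + 3 / 4 - (9 * (m : ℝ) + 3 / 4)) / 3 = 3 * ((n : ℝ) - m) by ring,
      FT_diff hn hm hne, mul_zero]

/-- completeness of the exponentials -/
theorem mu_complete {f : ℝ → ℂ} (hf : MemLp f 2 mu)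
    (h : ∀ l ∈ LamMu, ∫ x, f x * ex (-(l * x)) ∂mu = 0) : f =ᵐ[mu] 0 := by
  have hs : MemLp f 2 (tau.map (fun y : ℝ => (y + 0) / 3) + tau.map (fun y => (y + 2) / 3)) := by
    have h2 : tau.map (fun y : ℝ => (y + 0) / 3) + tau.map (fun y => (y + 2) / 3) =
        (2 : ℝ≥0∞) • mu := by
      unfold mu
      rw [smul_smul, ENNReal.mul_inv_cancel (by norm_num) (by norm_num), one_smul]
    rw [h2]
    exact hf.smul_measure (by norm_num)
  have hs0 : MemLp f 2 (tau.map (fun y : ℝ => (y + 0) / 3)) := hs.left_of_add_measure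
  have hs2 : MemLp f 2 (tau.map (fun y : ℝ => (y + 2) / 3)) := hs.right_of_add_measure
  set f0 : ℝ → ℂ := fun y => f ((y + 0) / 3) with hf0
  set f1 : ℝ → ℂ := fun y => f ((y + 2) / 3) with hf1
  have g0 : MemLp f0 2 tau := (memLp_map_measure_iff hs0.aestronglyMeasurable (by fun_prop)).mp hs0
  have g1 : MemLp f1 2 tau := (memLp_map_measure_iff hs2.aestronglyMeasurable (by fun_prop)).mp hs2
  have hbound : ∀ (l : ℝ) (g : ℝ → ℂ) (ν : Measure ℝ), MemLp g 2 ν →
      MemLp (fun x => g x * ex (-(l * x))) 2 ν := by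
    intro l g ν hg
    refine hg.of_le (hg.1.mul (by fun_prop : Continuous _).aestronglyMeasurable) ?_
    exact Filter.Eventually.of_forall fun x => by rw [norm_mul, norm_ex, mul_one]
  have hsplit : ∀ l : ℝ, ∫ x, f x * ex (-(l * x)) ∂mu =
      (∫ y, f0 y * ex (-(l * ((y + 0) / 3))) ∂tau +
        ∫ y, f1 y * ex (-(l * ((y + 2) / 3))) ∂tau) / 2 := fun l =>
    integral_mu (hbound l f mu hf)
  have hadd : MemLp (fun y => f0 y + f1 y) 2 tau := g0.add g1
  have hsub : MemLp (fun y => (f0 y - f1 y) * ex (-(1 / 4 * y))) 2 tau :=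
    hbound (1 / 4) _ tau (g0.sub g1)
  have hI : ∀ (l : ℝ) (g : ℝ → ℂ), MemLp g 2 tau →
      Integrable (fun x => g x * ex (-(l * x))) tau := fun l g hg =>
    (hbound l g tau hg).integrable (by norm_num)
  have c1 : (fun y => f0 y + f1 y) =ᵐ[tau] 0 := by
    refine tau_complete hadd fun n hn => ?_
    have h1 := h (9 * (n : ℝ)) ⟨n, hn, Or.inl rfl⟩
    rw [hsplit] at h1
    have e0 : ∀ y : ℝ, ex (-(9 * (n : ℝ) * ((y + 0) / 3))) = ex (-(3 * (n : ℝ) * y)) := by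
      intro y; congr 1; ring
    have e1 : ∀ y : ℝ, ex (-(9 * (n : ℝ) * ((y + 2) / 3))) = ex (-(3 * (n : ℝ) * y)) := by
      intro y
      rw [show -(9 * (n : ℝ) * ((y + 2) / 3)) = -(3 * (n : ℝ) * y) + ((-(6 * n) : ℤ) : ℝ) by
        push_cast; ring, ex_add, ex_int, mul_one]
    simp_rw [e0, e1] at h1
    have h2 := hI (3 * (n : ℝ)) f0 g0
    have h3 := hI (3 * (n : ℝ)) f1 g1
    have h4 : ∀ y : ℝ, (f0 y + f1 y) * ex (-(3 * (n : ℝ) * y)) =
        f0 y * ex (-(3 * (n : ℝ) * y)) + f1 y * ex (-(3 * (n : ℝ) * y)) := fun y => by ring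
    simp_rw [h4]
    rw [integral_add h2 h3]
    linear_combination 2 * h1
  have c2 : (fun y => (f0 y - f1 y) * ex (-(1 / 4 * y))) =ᵐ[tau] 0 := by
    refine tau_complete hsub fun n hn => ?_
    have h1 := h (9 * (n : ℝ) + 3 / 4) ⟨n, hn, Or.inr rfl⟩
    rw [hsplit] at h1
    have e0 : ∀ y : ℝ, ex (-((9 * (n : ℝ) + 3 / 4) * ((y + 0) / 3))) =
        ex (-((3 * (n : ℝ) + 1 / 4) * y)) := by
      intro y; congr 1; ring
    have e1 : ∀ y : ℝ, ex (-((9 * (n : ℝ) + 3 / 4) * ((y + 2) / 3))) =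
        -ex (-((3 * (n : ℝ) + 1 / 4) * y)) := by
      intro y
      rw [show -((9 * (n : ℝ) + 3 / 4) * ((y + 2) / 3)) =
        -((3 * (n : ℝ) + 1 / 4) * y) + ((((-(6 * n) - 1) : ℤ) : ℝ) + 1 / 2) by
        push_cast; ring, ex_add, ex_add, ex_int, ex_half]
      ring
    simp_rw [e0, e1] at h1
    have h2 := hI (3 * (n : ℝ) + 1 / 4) f0 g0
    have h3 := hI (3 * (n : ℝ) + 1 / 4) f1 g1
    have h4 : ∀ y : ℝ, (f0 y - f1 y) * ex (-(1 / 4 * y)) * ex (-(3 * (n : ℝ) * y)) =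
        f0 y * ex (-((3 * (n : ℝ) + 1 / 4) * y)) -
          f1 y * ex (-((3 * (n : ℝ) + 1 / 4) * y)) := by
      intro y
      rw [mul_assoc, ← ex_add, show -(1 / 4 * y) + -(3 * (n : ℝ) * y) =
        -((3 * (n : ℝ) + 1 / 4) * y) by ring]
      ring
    simp_rw [h4]
    rw [integral_sub h2 h3]
    simp_rw [mul_neg] at h1
    rw [integral_neg] at h1
    linear_combination 2 * h1
  have z : ∀ᵐ y ∂tau, f0 y = 0 ∧ f1 y = 0 := by
    filter_upwards [c1, c2] with y h1 h2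
    simp only [Pi.zero_apply] at h1 h2
    have h3 : ex (-(1 / 4 * y)) ≠ 0 := by
      intro hz
      have := norm_ex (-(1 / 4 * y))
      rw [hz, norm_zero] at this
      norm_num at this
    have h4 : f0 y - f1 y = 0 := (mul_eq_zero.mp h2).resolve_right h3
    constructor
    · linear_combination (h1 + h4) / 2
    · linear_combination (h1 - h4) / 2
  have z0 : f =ᵐ[tau.map (fun y : ℝ => (y + 0) / 3)] 0 := by
    rw [← eLpNorm_eq_zero_iff hs0.aestronglyMeasurable (by norm_num : (2 : ℝ≥0∞) ≠ 0),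
      eLpNorm_map_measure hs0.aestronglyMeasurable (by fun_prop)]
    refine (eLpNorm_eq_zero_iff g0.aestronglyMeasurable (by norm_num : (2 : ℝ≥0∞) ≠ 0)).mpr ?_
    filter_upwards [z] with y hy
    exact hy.1
  have z2 : f =ᵐ[tau.map (fun y : ℝ => (y + 2) / 3)] 0 := by
    rw [← eLpNorm_eq_zero_iff hs2.aestronglyMeasurable (by norm_num : (2 : ℝ≥0∞) ≠ 0),
      eLpNorm_map_measure hs2.aestronglyMeasurable (by fun_prop)]
    refine (eLpNorm_eq_zero_iff g1.aestronglyMeasurable (by norm_num : (2 : ℝ≥0∞) ≠ 0)).mpr ?_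
    filter_upwards [z] with y hy
    exact hy.2
  rw [mu]
  exact Measure.ae_smul_measure (ae_add_measure_iff.mpr ⟨z0, z2⟩) _

end Run7.h259.Sp
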