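import Mathlib

/-!
The self-similar probability measure `tau = (1/4) ∑_{c ∈ {0,2,3,5}} tau ∘ (y ↦ (y + c) / 12)⁻¹`
as the image of Lebesgue measure on `[0, 1)` under `∑ d_n 4^{-n} ↦ ∑ c(d_n) 12^{-n}`.
(The construction follows the file `R249.Sp.Meas` of the starting tree, which does base 2.)
-/

set_option autoImplicit false

open MeasureTheory Set Filter Topology
open scoped ENNReal

namespace Run7.h259.Sp

/-- the digit function `0, 1, 2, 3 ↦ 0, 5, 2, 3` (so that `cc k ≡ k mod 4`) -/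
def cc (k : ℤ) : ℤ := if k = 0 then 0 else if k = 1 then 5 else k

/-- the `n`-th digit in base 4, transformed -/
noncomputable def dig (n : ℕ) (x : ℝ) : ℝ := ((cc (⌊(4 : ℝ) ^ (n + 1) * x⌋ % 4) : ℤ) : ℝ)

lemma cc_nonneg {k : ℤ} (h : 0 ≤ k) : 0 ≤ cc k := by
  unfold cc; split_ifs <;> omega

lemma cc_le {k : ℤ} (h : k < 4) : cc k ≤ 5 := by
  unfold cc; split_ifs <;> omega

lemma dig_nonneg (n : ℕ) (x : ℝ) : 0 ≤ dig n x := by
  unfold dig
  exact_mod_cast cc_nonneg (Int.emod_nonneg _ (by norm_num))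

lemma dig_le (n : ℕ) (x : ℝ) : dig n x ≤ 5 := by
  unfold dig
  exact_mod_cast cc_le (Int.emod_lt_of_pos _ (by norm_num))

lemma measurable_dig (n : ℕ) : Measurable (dig n) := by
  unfold dig
  have h1 : Measurable fun x : ℝ => ⌊(4 : ℝ) ^ (n + 1) * x⌋ :=
    Int.measurable_floor.comp (measurable_const.mul measurable_id)
  have h2 : Measurable fun z : ℤ => ((cc (z % 4) : ℤ) : ℝ) := measurable_from_top
  exact h2.comp h1

/-- the digit map -/
noncomputable def hh (x : ℝ) : ℝ := ∑' n : ℕ, dig n x / 12 ^ (n + 1)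

lemma hasSum_geo : HasSum (fun n : ℕ => (5 : ℝ) / 12 ^ (n + 1)) (5 / 11) := by
  have h := (hasSum_geometric_of_lt_one (r := (1 / 12 : ℝ)) (by norm_num) (by norm_num)).mul_left
    (5 / 12)
  have e1 : (fun n : ℕ => (5 : ℝ) / 12 ^ (n + 1)) = fun n : ℕ => 5 / 12 * (1 / 12 : ℝ) ^ n := by
    funext n
    rw [pow_succ, div_pow, one_pow]
    field_simp
  have e2 : (5 / 11 : ℝ) = 5 / 12 * (1 - 1 / 12)⁻¹ := by norm_num
  rw [e1, e2]
  exact h

lemma term_nonneg (x : ℝ) (n : ℕ) : 0 ≤ dig n x / 12 ^ (n + 1) := by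
  have := dig_nonneg n x
  positivity

lemma term_le (x : ℝ) (n : ℕ) : dig n x / 12 ^ (n + 1) ≤ 5 / 12 ^ (n + 1) := by
  have := dig_le n x
  apply div_le_div_of_nonneg_right _ (by positivity)
  linarith

lemma summable_term (x : ℝ) : Summable fun n : ℕ => dig n x / 12 ^ (n + 1) :=
  Summable.of_nonneg_of_le (term_nonneg x) (term_le x) hasSum_geo.summable

lemma measurable_hh : Measurable hh := by
  refine measurable_of_tendsto_metrizable
    (f := fun (N : ℕ) (x : ℝ) => ∑ n ∈ Finset.range N, dig n x / 12 ^ (n + 1)) ?_ ?_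
  · intro N
    refine Finset.measurable_fun_sum _ fun n _ => ?_
    exact (measurable_dig n).div_const _
  · rw [tendsto_pi_nhds]
    intro x
    exact (summable_term x).hasSum.tendsto_sum_nat

lemma dig_shift (n : ℕ) (x : ℝ) (k : ℤ) : dig n (4 * x - k) = dig (n + 1) x := by
  unfold dig
  have h1 : (4 : ℝ) ^ (n + 1) * (4 * x - k) = (4 : ℝ) ^ (n + 1 + 1) * x - ((4 ^ (n + 1) * k : ℤ) : ℝ)
      := by
    push_cast
    ring
  rw [h1, Int.floor_sub_intCast]
  congr 2
  have h2 : (4 : ℤ) ^ (n + 1) * k = 4 * (4 ^ n * k) := by ring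
  rw [h2]
  omega

lemma hh_rec (x : ℝ) (k : ℤ) : hh x = (dig 0 x + hh (4 * x - k)) / 12 := by
  have h1 : hh x = dig 0 x / 12 ^ (0 + 1) + ∑' n : ℕ, dig (n + 1) x / 12 ^ (n + 1 + 1) := by
    unfold hh
    exact (summable_term x).tsum_eq_zero_add
  have h2 : ∑' n : ℕ, dig (n + 1) x / 12 ^ (n + 1 + 1) = (1 / 12) * hh (4 * x - k) := by
    unfold hh
    rw [← tsum_mul_left]
    congr 1
    funext n
    rw [dig_shift]
    rw [pow_succ (12 : ℝ) (n + 1)]
    field_simp
  rw [h1, h2]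
  ring

lemma hh_piece {x : ℝ} (k : ℤ) (hk0 : 0 ≤ k) (hk4 : k < 4) (h0 : (k : ℝ) / 4 ≤ x)
    (h1 : x < (k + 1) / 4) : hh x = (hh (4 * x - k) + cc k) / 12 := by
  have h2 : dig 0 x = cc k := by
    unfold dig
    have : ⌊(4 : ℝ) ^ (0 + 1) * x⌋ = k := by
      rw [Int.floor_eq_iff]
      norm_num
      constructor <;> linarith
    rw [this, Int.emod_eq_of_lt hk0 hk4]
  have := hh_rec x k
  rw [this, h2]
  ring

/-- the measure `tau` -/
noncomputable def tau : Measure ℝ := (volume.restrict (Ico (0 : ℝ) 1)).map hh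

instance : IsProbabilityMeasure tau := by
  constructor
  unfold tau
  rw [Measure.map_apply measurable_hh MeasurableSet.univ]
  simp

lemma tau_apply {E : Set ℝ} (hE : MeasurableSet E) :
    tau E = volume (Ico (0 : ℝ) 1 ∩ hh ⁻¹' E) := by
  unfold tau
  rw [Measure.map_apply measurable_hh hE, Measure.restrict_apply (measurable_hh hE), inter_comm]

lemma piece_vol (k : ℤ) (hk0 : 0 ≤ k) (hk4 : k < 4) (E : Set ℝ) :
    volume (Ico ((k : ℝ) / 4) ((k + 1) / 4) ∩ hh ⁻¹' E) =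
      4⁻¹ * volume (Ico (0 : ℝ) 1 ∩ hh ⁻¹' ((fun x => (x + cc k) / 12) ⁻¹' E)) := by
  have : Ico ((k : ℝ) / 4) ((k + 1) / 4) ∩ hh ⁻¹' E =
      (fun x : ℝ => 4 * x) ⁻¹' ((fun y : ℝ => y + (-(k : ℝ))) ⁻¹'
        (Ico (0 : ℝ) 1 ∩ hh ⁻¹' ((fun x => (x + cc k) / 12) ⁻¹' E))) := by
    ext x
    simp only [mem_inter_iff, mem_Ico, mem_preimage]
    have e : 4 * x + -(k : ℝ) = 4 * x - k := by ring
    rw [e]
    constructor
    · rintro ⟨⟨h1, h2⟩, h3⟩
      refine ⟨⟨by linarith, by linarith⟩, ?_⟩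
      rwa [hh_piece k hk0 hk4 h1 h2] at h3
    · rintro ⟨⟨h1, h2⟩, h3⟩
      have h1' : (k : ℝ) / 4 ≤ x := by linarith
      have h2' : x < ((k : ℝ) + 1) / 4 := by linarith
      refine ⟨⟨h1', h2'⟩, ?_⟩
      rwa [hh_piece k hk0 hk4 h1' h2']
  rw [this, Real.volume_preimage_mul_left (by norm_num), measure_preimage_add_right]
  congr 1
  rw [abs_of_pos (by norm_num), ENNReal.ofReal_inv_of_pos (by norm_num)]
  norm_num

/-- self-similarity -/
lemma tau_selfsim {E : Set ℝ} (hE : MeasurableSet E) :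
    tau E = 4⁻¹ * tau ((fun x => (x + 0) / 12) ⁻¹' E) + 4⁻¹ * tau ((fun x => (x + 2) / 12) ⁻¹' E) +
      4⁻¹ * tau ((fun x => (x + 3) / 12) ⁻¹' E) + 4⁻¹ * tau ((fun x => (x + 5) / 12) ⁻¹' E) := by
  have hm : ∀ c : ℝ, Measurable fun x : ℝ => (x + c) / 12 := by intro c; fun_prop
  rw [tau_apply hE, tau_apply (hm _ hE), tau_apply (hm _ hE), tau_apply (hm _ hE),
    tau_apply (hm _ hE)]
  have hmh : MeasurableSet (hh ⁻¹' E) := measurable_hh hE
  have p0 := piece_vol 0 (by norm_num) (by norm_num) E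
  have p1 := piece_vol 1 (by norm_num) (by norm_num) E
  have p2 := piece_vol 2 (by norm_num) (by norm_num) E
  have p3 := piece_vol 3 (by norm_num) (by norm_num) E
  have c0 : cc 0 = 0 := by decide
  have c1 : cc 1 = 5 := by decide
  have c2 : cc 2 = 2 := by decide
  have c3 : cc 3 = 3 := by decide
  rw [c0] at p0
  rw [c1] at p1
  rw [c2] at p2
  rw [c3] at p3
  push_cast at p0 p1 p2 p3
  rw [← p0, ← p1, ← p2, ← p3]
  have hsplit : Ico (0 : ℝ) 1 ∩ hh ⁻¹' E =
      (((Ico ((0 : ℝ) / 4) ((0 + 1) / 4) ∩ hh ⁻¹' E) ∪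
      (Ico ((1 : ℝ) / 4) ((1 + 1) / 4) ∩ hh ⁻¹' E)) ∪
      (Ico ((2 : ℝ) / 4) ((2 + 1) / 4) ∩ hh ⁻¹' E)) ∪
      (Ico ((3 : ℝ) / 4) ((3 + 1) / 4) ∩ hh ⁻¹' E) := by
    rw [← union_inter_distrib_right, ← union_inter_distrib_right, ← union_inter_distrib_right]
    congr 1
    ext x
    simp only [mem_union, mem_Ico]
    constructor
    · rintro ⟨h1, h2⟩
      rcases lt_or_ge x (1 / 4) with h | h
      · left; left; left; constructor <;> linarith
      rcases lt_or_ge x (2 / 4) with h' | h'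
      · left; left; right; constructor <;> linarith
      rcases lt_or_ge x (3 / 4) with h'' | h''
      · left; right; constructor <;> linarith
      · right; constructor <;> linarith
    · rintro (((⟨h1, h2⟩ | ⟨h1, h2⟩) | ⟨h1, h2⟩) | ⟨h1, h2⟩) <;> constructor <;> linarith
  rw [hsplit, measure_union, measure_union, measure_union]
  · ring
  · refine (Disjoint.inter_left _ (Disjoint.inter_right _ ?_))
    rw [Set.disjoint_left]
    rintro x ⟨-, h1⟩ ⟨h2, -⟩
    linarith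
  · exact measurableSet_Ico.inter hmh
  · rw [← union_inter_distrib_right]
    refine (Disjoint.inter_left _ (Disjoint.inter_right _ ?_))
    rw [Set.disjoint_left]
    rintro x (⟨-, h1⟩ | ⟨-, h1⟩) ⟨h2, -⟩ <;> linarith
  · exact measurableSet_Ico.inter hmh
  · rw [← union_inter_distrib_right, ← union_inter_distrib_right]
    refine (Disjoint.inter_left _ (Disjoint.inter_right _ ?_))
    rw [Set.disjoint_left]
    rintro x ((⟨-, h1⟩ | ⟨-, h1⟩) | ⟨-, h1⟩) ⟨h2, -⟩ <;> linarith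
  · exact measurableSet_Ico.inter hmh

/-- self-similarity as an identity of measures -/
lemma tau_eq : tau = (4⁻¹ : ℝ≥0∞) • (tau.map (fun x => (x + 0) / 12) +
    tau.map (fun x => (x + 2) / 12) + tau.map (fun x => (x + 3) / 12) +
    tau.map (fun x => (x + 5) / 12)) := by
  have hm : ∀ c : ℝ, Measurable fun x : ℝ => (x + c) / 12 := by intro c; fun_prop
  ext E hE
  rw [Measure.smul_apply, Measure.add_apply, Measure.add_apply, Measure.add_apply,
    Measure.map_apply (hm _) hE, Measure.map_apply (hm _) hE, Measure.map_apply (hm _) hE,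
    Measure.map_apply (hm _) hE, smul_eq_mul, tau_selfsim hE]
  ring

end Run7.h259.Sp
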